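import Pool.Agent.WVal.Almost

/-!
# Weil sums of binomials: almost all exponents

For every `ε > 0` there is `C` such that over every finite field `F` (any characteristic `p`, any degree
`n = [F : F_p]`) all but at most `C n ^ C` of the invertible exponents `d` modulo `|F| - 1` satisfy
`V_{F,d} ≤ (1/2 + ε) n`.
-/

set_option autoImplicit false

namespace Pool.Agent.Results.MP_830da8_nt.AlmostAll

theorem result (ε : ℝ) (hε : 0 < ε) : ∃ C : ℕ,
    ∀ (p : ℕ) [Fact p.Prime] (F : Type) [Field F] [Fintype F] [Algebra (ZMod p) F],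
      {d : ℕ | d < Fintype.card F - 1 ∧ Nat.Coprime d (Fintype.card F - 1) ∧
        ¬ ∃ a : F, a ≠ 0 ∧ ∃ m : ℤ, m ≠ 0 ∧
        (m : ℂ) = ∏ j ∈ Finset.Ico 1 p,
          ∑ x : F, Complex.exp (2 * (Real.pi : ℂ) * Complex.I * (j : ℂ) *
            ((Algebra.trace (ZMod p) F (x ^ d - a * x)).val : ℂ) / (p : ℂ)) ∧
        (padicValInt p m : ℝ) ≤
          ((p : ℝ) - 1) * (1 / 2 + ε) * (Module.finrank (ZMod p) F : ℝ)}.ncard ≤
      C * (Module.finrank (ZMod p) F) ^ C :=
  Pool.Agent.WVal.weil_almost ε hε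

end Pool.Agent.Results.MP_830da8_nt.AlmostAll
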