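import Pool.Agent.WVal.ThmE

/-!
# Weil sums of binomials: the valuation is at most `(1/2 + ε) n`

For every `ε > 0` there are `ℓ₀, p₀` such that for every prime `p ≥ p₀`, every finite field `F` of characteristic
`p` whose degree `n = [F : F_p]` has no odd prime factor below `ℓ₀`, and every nondegenerate invertible exponent `d`,
some Weil sum `W(a) = ∑ ψ(x^d - a x)`, `a ≠ 0`, is nonzero with `p`-adic valuation at most `(1/2 + ε) n`
(`m` is the norm of `W(a)` from `ℚ(ζ_p)` to `ℚ`, `v_p(m) = (p-1) v_p(W(a))`).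
-/

set_option autoImplicit false

namespace Pool.Agent.Results.MP_830da8_nt.AsymptoticHalf

theorem result (ε : ℝ) (hε : 0 < ε) : ∃ ℓ₀ p₀ : ℕ,
    ∀ (p : ℕ) [Fact p.Prime] (F : Type) [Field F] [Fintype F] [Algebra (ZMod p) F] (d : ℕ),
      p₀ ≤ p → (∀ q : ℕ, q.Prime → q ≠ 2 → q ∣ Module.finrank (ZMod p) F → ℓ₀ ≤ q) →
      Nat.Coprime d (Fintype.card F - 1) →
      (¬ ∃ k : ℕ, d ≡ p ^ k [MOD Fintype.card F - 1]) →
      ∃ a : F, a ≠ 0 ∧ ∃ m : ℤ, m ≠ 0 ∧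
        (m : ℂ) = ∏ j ∈ Finset.Ico 1 p,
          ∑ x : F, Complex.exp (2 * (Real.pi : ℂ) * Complex.I * (j : ℂ) *
            ((Algebra.trace (ZMod p) F (x ^ d - a * x)).val : ℂ) / (p : ℂ)) ∧
        (padicValInt p m : ℝ) ≤
          ((p : ℝ) - 1) * (1 / 2 + ε) * (Module.finrank (ZMod p) F : ℝ) :=
  Pool.Agent.WVal.weil_valuation_two ε hε

end Pool.Agent.Results.MP_830da8_nt.AsymptoticHalf
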