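import Pool.Agent.WTor.Uniform

/-!
# Weil sums of binomials: Q1 in every large characteristic, depending only on the least odd prime factor of `n`

For every `L` there is `p₀` such that for every prime `p ≥ p₀`, every finite field `F` of characteristic `p` and
every nondegenerate invertible exponent `d`: if the least odd prime factor `ℓ` of `n = [F : F_p]` is at most `L`, then
some Weil sum `W(a) = ∑ ψ(x^d - a x)`, `a ≠ 0`, is nonzero with `p`-adic valuation at most `(ℓ + 1) n / (2 ℓ)`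
(`m` is the norm of `W(a)` from `ℚ(ζ_p)` to `ℚ`, `v_p(m) = (p-1) v_p(W(a))`). This is the frozen statement `S17613`
with the extra hypothesis `p ≥ p₀(ℓ)`; there is no condition on the size of `n`.
-/

set_option autoImplicit false

namespace Pool.Agent.Results.MP_830da8_nt.LargeCharacteristic

theorem result (L : ℕ) : ∃ p₀ : ℕ,
    ∀ (p : ℕ) [Fact p.Prime] (F : Type) [Field F] [Fintype F] [Algebra (ZMod p) F]
      (d ℓ : ℕ), p₀ ≤ p → ℓ ≤ L →
      Nat.Coprime d (Fintype.card F - 1) →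
      (¬ ∃ k : ℕ, d ≡ p ^ k [MOD Fintype.card F - 1]) →
      ℓ.Prime → ℓ ≠ 2 → ℓ ∣ Module.finrank (ZMod p) F →
      (∀ q : ℕ, q.Prime → q ≠ 2 → q ∣ Module.finrank (ZMod p) F → ℓ ≤ q) →
      ∃ a : F, a ≠ 0 ∧ ∃ m : ℤ, m ≠ 0 ∧
        (m : ℂ) = ∏ j ∈ Finset.Ico 1 p,
          ∑ x : F, Complex.exp (2 * (Real.pi : ℂ) * Complex.I * (j : ℂ) *
            ((Algebra.trace (ZMod p) F (x ^ d - a * x)).val : ℂ) / (p : ℂ)) ∧
        (padicValInt p m : ℝ) ≤
          ((p : ℝ) - 1) * (((ℓ : ℝ) + 1) / (2 * (ℓ : ℝ))) *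
            (Module.finrank (ZMod p) F : ℝ) :=
  Pool.Agent.WTor.weil_least L

end Pool.Agent.Results.MP_830da8_nt.LargeCharacteristic
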